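import Pool.Agent.W712.RP.Stm

/-! Project RP (helper712), part RP-HEL. -/

set_option autoImplicit false

open Set Finset

namespace Pool.Agent.W315.RP

open Pool.Agent.W712.RP

theorem hel : S_HEL := by
  intro E _ _ _ C hd hC hK hne
  obtain ⟨y0, hy0⟩ := hne
  set d : ℕ := Module.finrank ℝ E with hd_def
  have hd0 : (0 : ℝ) < d := by exact_mod_cast hd
  let F : C → Set E := fun y => C ∩ (fun z : E => z - (d : ℝ)⁻¹ • ((y : E) - z)) ⁻¹' C
  have hconv : ∀ y, Convex ℝ (F y) := by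
    intro y
    refine hC.inter ?_
    intro z hz w hw a b ha hb hab
    simp only [Set.mem_preimage] at hz hw ⊢
    have h1 := hC hz hw ha hb hab
    convert h1 using 1
    obtain rfl : b = 1 - a := by linarith
    module
  have hcomp : ∀ y, IsCompact (F y) := by
    intro y
    refine hK.inter_right (hK.isClosed.preimage ?_)
    fun_prop
  have hinter : ∀ I : Finset C, I.card ≤ Module.finrank ℝ E + 1 → (⋂ i ∈ I, F i).Nonempty := by
    intro I hI
    classical
    let g : Fin (d + 1) → C := fun i =>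
      if h : (i : ℕ) < I.card then ((I.equivFin.symm ⟨i, h⟩ : I) : C) else ⟨y0, hy0⟩
    set S : E := ∑ i, (g i : E) with hS
    have hz1 : ((d : ℝ) + 1)⁻¹ • S = ∑ i, ((d : ℝ) + 1)⁻¹ • (g i : E) := by
      rw [hS, Finset.smul_sum]
    refine ⟨((d : ℝ) + 1)⁻¹ • S, ?_⟩
    simp only [Set.mem_iInter]
    intro j hj
    obtain ⟨i0, hi0⟩ : ∃ i0, g i0 = j := by
      refine ⟨⟨(I.equivFin ⟨j, hj⟩ : ℕ), ?_⟩, ?_⟩
      · have := (I.equivFin ⟨j, hj⟩).2
        omega
      · simp only [g]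
        rw [dif_pos (I.equivFin ⟨j, hj⟩).2]
        simp
    refine ⟨?_, ?_⟩
    · rw [hz1]
      refine hC.sum_mem (fun i _ => by positivity) ?_ (fun i _ => (g i).2)
      rw [Finset.sum_const, Finset.card_univ, Fintype.card_fin, nsmul_eq_mul]
      push_cast
      field_simp
    · simp only [Set.mem_preimage]
      have h2 : ((d : ℝ) + 1)⁻¹ • S - (d : ℝ)⁻¹ • ((j : E) - ((d : ℝ) + 1)⁻¹ • S)
          = ∑ i ∈ Finset.univ.erase i0, (d : ℝ)⁻¹ • (g i : E) := by
        rw [← Finset.smul_sum, Finset.sum_erase_eq_sub (Finset.mem_univ i0), ← hS, hi0]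
        have h3 : ((d : ℝ) + 1)⁻¹ + (d : ℝ)⁻¹ * ((d : ℝ) + 1)⁻¹ = (d : ℝ)⁻¹ := by
          field_simp
        have h4 : ((d : ℝ) + 1)⁻¹ • S - (d : ℝ)⁻¹ • ((j : E) - ((d : ℝ) + 1)⁻¹ • S)
            = (((d : ℝ) + 1)⁻¹ + (d : ℝ)⁻¹ * ((d : ℝ) + 1)⁻¹) • S - (d : ℝ)⁻¹ • (j : E) := by
          module
        rw [h4, h3, smul_sub]
      rw [h2]
      refine hC.sum_mem (fun i _ => by positivity) ?_ (fun i _ => (g i).2)
      rw [Finset.sum_const, Finset.card_erase_of_mem (Finset.mem_univ i0), Finset.card_univ,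
        Fintype.card_fin, nsmul_eq_mul]
      simp only [Nat.add_sub_cancel]
      field_simp
  obtain ⟨z, hz⟩ := Convex.helly_theorem_compact' (𝕜 := ℝ) hconv hcomp hinter
  rw [Set.mem_iInter] at hz
  exact ⟨z, (hz ⟨y0, hy0⟩).1, fun y hy => (hz ⟨y, hy⟩).2⟩

end Pool.Agent.W315.RP
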