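import Pool.Agent.W712.RP.Stm

/-! Project RP (helper712), part RP-WG. -/

set_option autoImplicit false

open MeasureTheory Set
open scoped ENNReal

namespace Pool.Agent.W315.RP

open Pool.Agent.W712.RP

theorem wg : S_WG := by
  intro m hm a ha
  let i0 : Fin m := ⟨0, hm⟩
  have hone : ∀ t, Wf a t ≤ 1 := by
    intro t
    have h1 : {r : Fin m → ℝ | (∀ i, 0 ≤ r i ∧ r i ≤ 1) ∧ ∏ i, (r i) ^ (1 / a i) ≤ t} ⊆
        Icc (0 : Fin m → ℝ) 1 := by
      rintro r ⟨hr, -⟩
      exact ⟨fun i => (hr i).1, fun i => (hr i).2⟩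
    refine (measure_mono h1).trans ?_
    rw [Real.volume_Icc_pi]
    simp
  have hmono : Monotone (Wf a) := by
    intro s t hst
    refine measure_mono ?_
    rintro r ⟨hr, hr'⟩
    exact ⟨hr, hr'.trans hst⟩
  have hprod : ∀ r : Fin m → ℝ, (∀ i, 0 ≤ r i ∧ r i ≤ 1) →
      ∏ i, (r i) ^ (1 / a i) ≤ r i0 ^ (1 / a i0) := by
    intro r hr
    rw [← Finset.mul_prod_erase _ _ (Finset.mem_univ i0)]
    refine mul_le_of_le_one_right (Real.rpow_nonneg (hr i0).1 _) ?_
    refine Finset.prod_le_one (fun i _ => Real.rpow_nonneg (hr i).1 _) (fun i _ => ?_)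
    have h1 := (ha i).1
    exact Real.rpow_le_one (hr i).1 (hr i).2 (by positivity)
  refine ⟨fun t ht => ⟨?_, hone t⟩, hmono, ?_⟩
  · have ha0 := (ha i0).1
    set b : ℝ := min 1 (t ^ a i0) with hb
    have hb0 : 0 < b := lt_min one_pos (Real.rpow_pos_of_pos ht _)
    have h1 : Icc (0 : Fin m → ℝ) (fun _ => b) ⊆
        {r : Fin m → ℝ | (∀ i, 0 ≤ r i ∧ r i ≤ 1) ∧ ∏ i, (r i) ^ (1 / a i) ≤ t} := by
      rintro r ⟨hr1, hr2⟩
      have hr : ∀ i, 0 ≤ r i ∧ r i ≤ 1 := fun i => ⟨hr1 i, (hr2 i).trans (min_le_left _ _)⟩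
      refine ⟨hr, (hprod r hr).trans ?_⟩
      have h2 : r i0 ≤ t ^ a i0 := (hr2 i0).trans (min_le_right _ _)
      calc r i0 ^ (1 / a i0) ≤ (t ^ a i0) ^ (1 / a i0) :=
            Real.rpow_le_rpow (hr i0).1 h2 (by positivity)
        _ = t := by
            rw [← Real.rpow_mul ht.le, mul_one_div_cancel ha0.ne', Real.rpow_one]
    refine lt_of_lt_of_le ?_ (measure_mono h1)
    rw [Real.volume_Icc_pi]
    simp only [Pi.zero_apply, sub_zero, Finset.prod_const]
    refine ENNReal.pow_pos ?_ _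
    rwa [ENNReal.ofReal_pos]
  · intro c t hc ht
    have hc0 : 0 < c := lt_of_lt_of_le one_pos hc
    have ha0 := (ha i0).1
    let D : Fin m → ℝ := fun i => if i = i0 then c ^ (-(a i0)) else 1
    have hD0 : ∀ i, 0 < D i := by
      intro i
      simp only [D]
      split_ifs
      · exact Real.rpow_pos_of_pos hc0 _
      · exact one_pos
    have hD1 : ∀ i, D i ≤ 1 := by
      intro i
      simp only [D]
      split_ifs
      · exact Real.rpow_le_one_of_one_le_of_nonpos hc (by linarith)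
      · exact le_rfl
    have hdet : LinearMap.det (Matrix.toLin' (Matrix.diagonal D)) = c ^ (-(a i0)) := by
      rw [LinearMap.det_toLin', Matrix.det_diagonal, Finset.prod_eq_single i0]
      · simp [D]
      · intro i _ hi
        simp [D, hi]
      · intro h
        exact absurd (Finset.mem_univ _) h
    have hprodD : ∏ i, (D i) ^ (1 / a i) = c⁻¹ := by
      rw [Finset.prod_eq_single i0]
      · simp only [D, if_true]
        rw [← Real.rpow_mul hc0.le, neg_mul, mul_one_div_cancel ha0.ne', Real.rpow_neg_one]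
      · intro i _ hi
        simp [D, hi]
      · intro h
        exact absurd (Finset.mem_univ _) h
    have hsub : {r : Fin m → ℝ | (∀ i, 0 ≤ r i ∧ r i ≤ 1) ∧ ∏ i, (r i) ^ (1 / a i) ≤ c * t} ⊆
        (Matrix.toLin' (Matrix.diagonal D)) ⁻¹'
          {r : Fin m → ℝ | (∀ i, 0 ≤ r i ∧ r i ≤ 1) ∧ ∏ i, (r i) ^ (1 / a i) ≤ t} := by
      rintro r ⟨hr, hr'⟩
      have hval : ∀ i, (Matrix.toLin' (Matrix.diagonal D)) r i = D i * r i := by
        intro i
        rw [Matrix.toLin'_apply, Matrix.mulVec_diagonal]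
      refine ⟨fun i => ?_, ?_⟩
      · rw [hval i]
        exact ⟨mul_nonneg (hD0 i).le (hr i).1, mul_le_one₀ (hD1 i) (hr i).1 (hr i).2⟩
      · have h1 : ∏ i, ((Matrix.toLin' (Matrix.diagonal D)) r i) ^ (1 / a i)
            = c⁻¹ * ∏ i, (r i) ^ (1 / a i) := by
          rw [← hprodD, ← Finset.prod_mul_distrib]
          refine Finset.prod_congr rfl fun i _ => ?_
          rw [hval i, Real.mul_rpow (hD0 i).le (hr i).1]
        rw [h1]
        calc c⁻¹ * ∏ i, (r i) ^ (1 / a i) ≤ c⁻¹ * (c * t) :=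
              mul_le_mul_of_nonneg_left hr' (by positivity)
          _ = t := by field_simp
    have hne : LinearMap.det (Matrix.toLin' (Matrix.diagonal D)) ≠ 0 := by
      rw [hdet]
      exact (Real.rpow_pos_of_pos hc0 _).ne'
    refine (measure_mono hsub).trans ?_
    rw [Measure.addHaar_preimage_linearMap volume hne, hdet]
    refine mul_le_mul_left ?_ _
    refine ENNReal.ofReal_le_ofReal ?_
    rw [← Real.rpow_neg hc0.le, neg_neg, abs_of_pos (Real.rpow_pos_of_pos hc0 _)]
    calc c ^ a i0 ≤ c ^ (1 : ℝ) := Real.rpow_le_rpow_of_exponent_le hc (ha i0).2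
      _ = c := Real.rpow_one c

end Pool.Agent.W315.RP
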